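import Pool.Agent.X133.OP.Fin

/-!
# Oriented percolation flow near `p = 1`

`V n ω` is the largest number of pairwise edge-disjoint oriented open paths from
`S = {(0,0), …, (0,n-2)} ∪ {(1,0), …, (n-2,0)}` to `T = {(0,n-1), …, (n-1,n-1)} ∪ {(n-1,n-2), …,
(n-1,0)}` in `{0, …, n-1}²`; every edge is open with probability `p`, independently (law `law p`).

We prove `1 - v(p) ∼ √(2(1-p))` as `p ↑ 1`, where `v(p)` is the limit of `V(n,p)/(2n)` in `L¹`.
The second part of the theorem is the same statement without the limit `v(p)`: for every `δ > 0`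
there is `p₀ < 1` such that for `p₀ < p < 1` and all large `n`,
`|1 - E V(n,p)/(2n) - √(2(1-p))| ≤ δ √(2(1-p))`.

Idea. A family of closed edges whose initial points form a strictly decreasing chain gives a cut
(upper bound for `V`). For the lower bound, by duality (height function), the loss of flow is the
value of a list of closed edges whose consecutive points may also go slightly backwards; a first
moment computation, in which each step has a price, shows that for `p` close to `1` the backward
steps and the repeated rows or columns do not change the leading order. The same first moment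
computation compares the longest strict chain of a Bernoulli field of density `1 - p²` with the
geometric last passage time of the starting library `W533/LP`, whose constant
`2√q/(1 - √q)` is known there for every `q`.
-/

set_option autoImplicit false

open MeasureTheory Filter
open scoped Topology ENNReal

namespace Pool.Agent.Results.MP_465a95_pr.FlowNearOne

/-- the oriented edges: `(x, y, false)` goes from `(x, y)` to `(x + 1, y)` (right),
`(x, y, true)` goes from `(x, y)` to `(x, y + 1)` (up) -/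
abbrev Edge : Type := ℕ × ℕ × Bool

/-- the initial vertex of an edge -/
def source (e : Edge) : ℕ × ℕ := (e.1, e.2.1)

/-- the final vertex of an edge -/
def target (e : Edge) : ℕ × ℕ := if e.2.2 then (e.1, e.2.1 + 1) else (e.1 + 1, e.2.1)

/-- `S = {(0,0), …, (0,n-2)} ∪ {(1,0), …, (n-2,0)}` -/
def S (n : ℕ) : Set (ℕ × ℕ) := {v | (v.1 = 0 ∧ v.2 + 2 ≤ n) ∨ (v.2 = 0 ∧ v.1 + 2 ≤ n)}

/-- `T = {(0,n-1), …, (n-1,n-1)} ∪ {(n-1,n-2), …, (n-1,0)}` -/
def T (n : ℕ) : Set (ℕ × ℕ) := {v | (v.2 + 1 = n ∧ v.1 < n) ∨ (v.1 + 1 = n ∧ v.2 < n)}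

/-- `l` is an oriented path (nonempty list of consecutive edges) in `{0, …, n-1}²`, all of whose
edges are open (`ω e = true`), beginning at a vertex of `S` and ending at a vertex of `T` -/
def OpenPath (n : ℕ) (ω : Edge → Bool) (l : List Edge) : Prop :=
  l ≠ [] ∧ (∀ e ∈ l, ω e = true ∧ (target e).1 < n ∧ (target e).2 < n) ∧
    l.IsChain (fun e f => target e = source f) ∧ (∀ e ∈ l.head?, source e ∈ S n) ∧
    (∀ e ∈ l.getLast?, target e ∈ T n)

/-- there are `k` pairwise edge-disjoint open paths from `S` to `T` -/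
def DisjointPaths (n : ℕ) (ω : Edge → Bool) (k : ℕ) : Prop :=
  ∃ P : Fin k → List Edge, (∀ i, OpenPath n ω (P i)) ∧ ∀ i j, i ≠ j → (P i).Disjoint (P j)

/-- the largest number of pairwise edge-disjoint open paths from `S` to `T` -/
noncomputable def V (n : ℕ) (ω : Edge → Bool) : ℕ := sSup {k | DisjointPaths n ω k}

/-- the law of the configuration: the edges are open independently with probability `p` -/
noncomputable def law (p : ℝ) : Measure (Edge → Bool) :=
  Measure.infinitePi fun _ =>
    ENNReal.ofReal p • Measure.dirac true + ENNReal.ofReal (1 - p) • Measure.dirac false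

theorem V_eq (n : ℕ) (ω : Edge → Bool) : V n ω = Pool.Agent.X133.OP.Vn n ω := rfl

theorem law_eq (p : ℝ) : law p = Pool.Agent.X133.OP.Pp p := rfl

/-- **`1 - v(p) ∼ √(2(1-p))` as `p ↑ 1`.** -/
theorem result :
    (∀ n : ℕ, 2 ≤ n → Measurable (V n) ∧
      ∀ ω, IsGreatest {k | DisjointPaths n ω k} (V n ω)) ∧
    (∀ δ : ℝ, 0 < δ → ∃ p₀ : ℝ, p₀ < 1 ∧ ∀ p : ℝ, p₀ < p → p < 1 → ∀ᶠ n : ℕ in atTop,
      |(1 - (∫ ω, (V n ω : ℝ) ∂(law p)) / (2 * n)) - Real.sqrt (2 * (1 - p))| ≤
        δ * Real.sqrt (2 * (1 - p))) ∧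
    ∀ v : ℝ → ℝ, (∀ p : ℝ, 0 < p → p < 1 →
      Tendsto (fun n : ℕ => ∫ ω, |(V n ω : ℝ) / (2 * n) - v p| ∂(law p)) atTop (𝓝 0)) →
      Tendsto (fun p => (1 - v p) / Real.sqrt (2 * (1 - p))) (𝓝[<] 1) (𝓝 1) := by
  refine ⟨fun n hn => ⟨Pool.Agent.X133.OP.Vn_meas n, fun ω =>
    ⟨Pool.Agent.X133.OP.dis_Vn hn ω, fun k hk => Pool.Agent.X133.OP.le_Vn hn hk⟩⟩, ?_, ?_⟩
  · intro δ hδ
    obtain ⟨p₀, h1, -, h2⟩ := Pool.Agent.X133.OP.main_lim hδ
    exact ⟨p₀, h1, h2⟩
  · intro v hv
    exact Pool.Agent.X133.OP.final v hv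

end Pool.Agent.Results.MP_465a95_pr.FlowNearOne
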